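import Pool.Agent.H44.SO.Basic
import Pool.Agent.H21.EQ.CNG

/-!
# Board `sot_modules`, row CAN: limits of local maps and canonization
-/

set_option autoImplicit false

namespace Pool.Agent.H6.SO.CAN

open Pool.Agent.H44.SO Pool.Agent.H57.SO Pool.Agent.H68.BP Pool.Agent.H58.SF
open Pool.Agent.H53.GC Pool.Agent.H53.NR
open Pool.Agent.H57.EQ (Cx Tour)
open Pool.Agent.H44.EQ (TInv Lift T_CNG)
open Function Filter

theorem exists_lim {T Y : Type} [Finite Y] (U : Ultrafilter T) (f : T → Y) :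
    ∃ y, ∀ᶠ t in (U : Filter T), f t = y := by
  have h1 : ∀ᶠ t in (U : Filter T), ∃ y ∈ (Set.univ : Set Y), f t = y :=
    Eventually.of_forall fun t => ⟨f t, trivial, rfl⟩
  obtain ⟨y, -, hy⟩ := (Ultrafilter.eventually_exists_mem_iff (Set.finite_univ)).1 h1
  exact ⟨y, hy⟩

section

variable {V S X : Type} [LinearOrder V] {P : Pal S X} {c : V → V → S ⊕ X} {σ : Sig}
  {𝔸 : Str σ V} {M : ℕ}

/-- the limit of local maps -/
theorem exists_h0 (hs : Stp P 𝔸 M c) (I : Type) [Finite I]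
    (R : (I → V) → (I → V) → S ⊕ X → Prop)
    (hG : ∀ (W : Type) [Finite W] (G : I → W → V), (∀ u w, (∀ i, G i u = G i w) → u = w) →
      ∃ ψ : W → V, Cx 𝔸 G ψ ∧
        ∀ u w, R (fun i => G i u) (fun i => G i w) (c (ψ u) (ψ w))) :
    ∃ h0 : (I → V) → (I → V) → (S ⊕ X) × Prop, (∀ v w, R v w (h0 v w).1) ∧
      ∀ (W : Type) [Finite W] (G : I → W → V), ∃ ψ : W → V, Cx 𝔸 G ψ ∧
        ∀ u w, h0 (fun i => G i u) (fun i => G i w) = (c (ψ u) (ψ w), ψ u < ψ w) := by
  classical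
  have := hs.finS
  have := hs.finX
  have := hs.ne
  have x0 : V := Classical.choice inferInstance
  -- the local maps
  have hloc : ∀ Q : Finset V, ∃ ψ : (I → Q) → V, Cx 𝔸 (fun (i : I) (w : I → Q) => (w i : V)) ψ ∧
      ∀ u w : I → Q, R (fun i => (u i : V)) (fun i => (w i : V)) (c (ψ u) (ψ w)) := by
    intro Q
    exact hG (I → Q) (fun i w => (w i : V)) (fun u w h => funext fun i => Subtype.ext (h i))
  choose ψ hψ hR using hloc
  let hQ : (I → V) → (I → V) → Finset V → (S ⊕ X) × Prop := fun v w Q =>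
    if h : (∀ i, v i ∈ Q) ∧ ∀ i, w i ∈ Q then
      (c (ψ Q fun i => ⟨v i, h.1 i⟩) (ψ Q fun i => ⟨w i, h.2 i⟩),
        (ψ Q fun i => ⟨v i, h.1 i⟩) < ψ Q fun i => ⟨w i, h.2 i⟩)
    else (c x0 x0, False)
  have hQdef : ∀ v w Q (h1 : ∀ i, v i ∈ Q) (h2 : ∀ i, w i ∈ Q), hQ v w Q =
      (c (ψ Q fun i => ⟨v i, h1 i⟩) (ψ Q fun i => ⟨w i, h2 i⟩),
        (ψ Q fun i => ⟨v i, h1 i⟩) < ψ Q fun i => ⟨w i, h2 i⟩) := by
    intro v w Q h1 h2
    exact dif_pos ⟨h1, h2⟩
  obtain ⟨U, hU⟩ := Ultrafilter.exists_le (atTop : Filter (Finset V))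
  choose h0 hh using fun v w => exists_lim U (hQ v w)
  have hin : ∀ K₀ : Finset V, ∀ᶠ K in (U : Filter (Finset V)), K₀ ⊆ K := fun K₀ =>
    hU (eventually_ge_atTop K₀)
  refine ⟨h0, ?_, ?_⟩
  · intro v w
    obtain ⟨K, hK1, hK2, hK3⟩ := ((hh v w).and ((hin (Set.finite_range v).toFinset).and
      (hin (Set.finite_range w).toFinset))).exists
    have h1 : ∀ i, v i ∈ K := fun i => hK2 (by simp)
    have h2 : ∀ i, w i ∈ K := fun i => hK3 (by simp)
    rw [← hK1, hQdef v w K h1 h2]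
    exact hR K (fun i => ⟨v i, h1 i⟩) (fun i => ⟨w i, h2 i⟩)
  · intro W _ G
    have h1 : ∀ᶠ K in (U : Filter (Finset V)), ∀ u w, hQ (fun i => G i u) (fun i => G i w) K =
        h0 (fun i => G i u) (fun i => G i w) := by
      rw [eventually_all]
      intro u
      rw [eventually_all]
      intro w
      exact hh _ _
    obtain ⟨K, hK1, hK2⟩ := (h1.and (hin
      (Set.finite_range fun p : I × W => G p.1 p.2).toFinset)).exists
    have h2 : ∀ i w, G i w ∈ K := fun i w => hK2 (by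
      rw [Set.Finite.mem_toFinset]
      exact ⟨(i, w), rfl⟩)
    refine ⟨fun w => ψ K fun i => ⟨G i w, h2 i w⟩, ?_, ?_⟩
    · intro l z hz
      exact hψ K l (fun a i => ⟨G i (z a), h2 i (z a)⟩) hz
    · intro u w
      rw [← hK1 u w, hQdef _ _ K (fun i => h2 i u) (fun i => h2 i w)]

/-- maps which preserve the order and the colouring `cD` on a finite set preserve types -/
theorem copy_of (hc : Col P c) {K : Finset V} {g : V → V}
    (h1 : ∀ x ∈ K, ∀ y ∈ K, x < y → g x < g y)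
    (h2 : ∀ x ∈ K, ∀ y ∈ K, x ≤ y → cD P c (g x) (g y) = cD P c x y) {x y : V} (hx : x ∈ K)
    (hy : y ∈ K) : (g x < g y ↔ x < y) ∧ c (g x) (g y) = c x y := by
  have hlt : ∀ x ∈ K, ∀ y ∈ K, x < y → c (g x) (g y) = c x y := by
    intro x hx y hy hxy
    rw [cD_of_ne hc hxy.ne, cD_of_ne hc (h1 x hx y hy hxy).ne, h2 x hx y hy hxy.le]
  refine ⟨⟨fun h => ?_, h1 x hx y hy⟩, ?_⟩
  · by_contra hn
    rcases (not_lt.mp hn).lt_or_eq with h3 | h3
    · exact lt_asymm h (h1 y hy x hx h3)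
    · rw [h3] at h
      exact lt_irrefl _ h
  · rcases lt_trichotomy x y with h | h | h
    · exact hlt x hx y hy h
    · subst h
      have h3 := h2 x hx x hx le_rfl
      rw [cD_self hc, cD_self hc] at h3
      have h4 := congrArg P.ls h3
      rw [P.ls_fr, P.ls_fr] at h4
      rw [Col.vt hc, Col.vt hc, h4]
    · exact Col.swap' hc (hlt y hy x hx h)

end

theorem pf_CAN : Pool.Agent.H44.SO.T_CAN := by
  classical
  intro σ V S X _ P 𝔸 M c hs I _ R hinv hG
  have := hs.finS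
  have := hs.finX
  have hc := hs.col
  obtain ⟨h0, hR0, hC0⟩ := exists_h0 hs I R hG
  obtain ⟨H, hT, hL⟩ := Pool.Agent.H21.EQ.pf_CNG V X I ((S ⊕ X) × Prop) (cD P c) (ramsey_cD hs) h0
  refine ⟨H, ?_, ?_, ?_⟩
  · intro v w v' w' h
    refine hT v w v' w' fun i j => ⟨(h i j).1, fun _ => ?_⟩
    rw [cD, cD, (h i j).2]
  · intro v w
    obtain ⟨g, hg1, hg2, hg3⟩ := hL ((Set.finite_range v).toFinset ∪ (Set.finite_range w).toFinset)
    have hv : ∀ i, v i ∈ (Set.finite_range v).toFinset ∪ (Set.finite_range w).toFinset :=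
      fun i => Finset.mem_union_left _ (by simp)
    have hw : ∀ i, w i ∈ (Set.finite_range v).toFinset ∪ (Set.finite_range w).toFinset :=
      fun i => Finset.mem_union_right _ (by simp)
    rw [hg3 v w hv hw]
    refine hinv (fun i => g (v i)) (fun i => g (w i)) v w _ ?_ (hR0 _ _)
    have hm : ∀ i : I ⊕ I, Sum.elim v w i ∈
        (Set.finite_range v).toFinset ∪ (Set.finite_range w).toFinset := by
      rintro (i | i)
      · exact hv i
      · exact hw i
    have he : (Sum.elim (fun i => g (v i)) fun i => g (w i)) = fun i => g (Sum.elim v w i) := by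
      funext i
      rcases i with i | i <;> rfl
    intro i j
    rw [he]
    exact copy_of hc hg1 hg2 (hm i) (hm j)
  · intro W _ G
    obtain ⟨g, hg1, hg2, hg3⟩ := hL (Set.finite_range fun p : I × W => G p.1 p.2).toFinset
    have hm : ∀ i w, G i w ∈ (Set.finite_range fun p : I × W => G p.1 p.2).toFinset := by
      intro i w
      rw [Set.Finite.mem_toFinset]
      exact ⟨(i, w), rfl⟩
    obtain ⟨ψ, h1, h2⟩ := hC0 W (fun i w => g (G i w))
    refine ⟨ψ, Cx.of_copy hs (fun i u w => (copy_of hc hg1 hg2 (hm i u) (hm i w)).2) h1, ?_⟩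
    intro u w
    rw [hg3 _ _ (fun i => hm i u) (fun i => hm i w)]
    exact h2 u w

end Pool.Agent.H6.SO.CAN
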